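import Mathlib

namespace Pool.Agent.Results.MP_f4335c_lc.Yes
open Finset

/-- A state: the positions of the `k` servers and the index of the frozen server. -/
abbrev St (M : Type) (k : ℕ) := (Fin k → M) × Fin k

variable {M : Type} [MetricSpace M] {k : ℕ}

/-- Serving the request `r` from state `s`: the frozen server does not move, and afterwards the
server which serves `r` (it is the new frozen server) stands at `r`. -/
def Step (s s' : St M k) (r : M) : Prop := s'.1 s.2 = s.1 s.2 ∧ s'.1 s'.2 = r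

/-- Total distance moved. -/
noncomputable def move (s s' : St M k) : ℝ := ∑ i, dist (s.1 i) (s'.1 i)

/-- `Serves s₀ ρ s c`: some offline schedule starting at `s₀` serves the requests `ρ` (latest
request first), ends in state `s` and costs `c`. -/
inductive Serves (s₀ : St M k) : List M → St M k → ℝ → Prop
  | nil : Serves s₀ [] s₀ 0
  | cons {ρ s c s' r} : Serves s₀ ρ s c → Step s s' r → Serves s₀ (r :: ρ) s' (c + move s s')

/-- The optimal offline cost. -/
noncomputable def opt (s₀ : St M k) (ρ : List M) : ℝ := sInf {c | ∃ s, Serves s₀ ρ s c}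

/-- A deterministic online algorithm: its state is a function of the requests so far. -/
def Online (s₀ : St M k) (A : List M → St M k) : Prop :=
  A [] = s₀ ∧ ∀ ρ r, Step (A ρ) (A (r :: ρ)) r

/-- The cost of the online algorithm `A`. -/
noncomputable def cost (A : List M → St M k) : List M → ℝ
  | [] => 0
  | r :: ρ => cost A ρ + move (A ρ) (A (r :: ρ))

/-- `A` is `C`-competitive. -/
def Competitive (s₀ : St M k) (A : List M → St M k) (C : ℝ) : Prop :=
  ∃ K : ℝ, ∀ ρ, cost A ρ ≤ C * opt s₀ ρ + K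

theorem serves_nn {s₀ : St M k} {ρ s c} (h : Serves s₀ ρ s c) : 0 ≤ c := by
  induction h with
  | nil => exact le_rfl
  | cons _ _ ih => exact add_nonneg ih (sum_nonneg fun _ _ => dist_nonneg)

theorem opt_le {s₀ : St M k} {ρ s c} (h : Serves s₀ ρ s c) : opt s₀ ρ ≤ c :=
  csInf_le ⟨0, fun _ ⟨_, h⟩ => serves_nn h⟩ ⟨s, h⟩

theorem opt_nn (s₀ : St M k) (ρ : List M) : 0 ≤ opt s₀ ρ :=
  Real.sInf_nonneg fun _ ⟨_, h⟩ => serves_nn h

def Adj (k : ℕ) (W : ℕ → ℝ) : Prop := ∀ n < k, W (n + 1) = W n + 1 ∨ W n = W (n + 1) + 1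

theorem lip {W : ℕ → ℝ} (h : Adj k W) (x y : ℕ) (hx : x ≤ k) (hy : y ≤ k) :
    W x ≤ W y + |(x : ℝ) - y| := by
  have key : ∀ a d, a + d ≤ k → W (a + d) ≤ W a + d ∧ W a ≤ W (a + d) + d := by
    intro a d
    induction d with
    | zero => simp
    | succ d ih =>
      intro hd
      have h1 := ih (by omega)
      have h2 := h (a + d) (by omega)
      rw [← add_assoc]; push_cast
      rcases h2 with h2 | h2 <;> constructor <;> linarith [h1.1, h1.2]
  rcases le_total x y with h1 | h1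
  · obtain ⟨d, rfl⟩ := Nat.exists_eq_add_of_le h1
    have := (key x d hy).2
    push_cast; rw [abs_sub_comm, add_sub_cancel_left, Nat.abs_cast]; exact this
  · obtain ⟨d, rfl⟩ := Nat.exists_eq_add_of_le h1
    have := (key y d hx).1
    push_cast; rw [add_sub_cancel_left, Nat.abs_cast]; exact this

def Sup (W : ℕ → ℝ) (p z : Fin (k + 1)) : Prop := z ≠ p ∧ W z + |((z : ℕ) : ℝ) - (p : ℕ)| ≤ W p

theorem sup_up {W : ℕ → ℝ} {p z : Fin (k + 1)} (h : z.val = p.val + 1) (h' : W p = W z + 1) :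
    Sup W p z := ⟨fun e => by rw [e] at h; omega, by rw [h', h]; simp⟩

theorem sup_dn {W : ℕ → ℝ} {p z : Fin (k + 1)} (h : p.val = z.val + 1) (h' : W p = W z + 1) :
    Sup W p z := ⟨fun e => by rw [e] at h; omega, by rw [h', h]; simp⟩

theorem upd (hk : 1 ≤ k) {W : ℕ → ℝ} (hW : Adj k W) (h : Fin (k + 1)) :
    ∃ W' : ℕ → ℝ, (∀ x ≠ h.val, W' x = W x) ∧ Adj k W' ∧ ∃ z, Sup W' h z := by
  have hh := h.isLt
  by_cases h1 : h.val < k ∧ W h = W (h + 1) + 1
  · exact ⟨W, fun _ _ => rfl, hW, ⟨h + 1, by omega⟩, sup_up rfl h1.2⟩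
  by_cases h2 : 0 < h.val ∧ W h = W (h - 1) + 1
  · exact ⟨W, fun _ _ => rfl, hW, ⟨h - 1, by omega⟩, sup_dn (by simp; omega) h2.2⟩
  have a1 : h.val < k → W (h + 1) = W h + 1 := fun a => (hW h a).resolve_right fun b => h1 ⟨a, b⟩
  have a2 : 0 < h.val → W (h - 1) = W h + 1 := fun a => by
    have := hW (h - 1) (by omega)
    rw [Nat.sub_add_cancel a] at this
    exact this.resolve_left fun b => h2 ⟨a, b⟩
  refine ⟨Function.update W h (W h + 2), fun x hx => Function.update_of_ne hx _ _, ?_, ?_⟩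
  · intro n hn
    by_cases e1 : n = h
    · subst e1
      rw [Function.update_self, Function.update_of_ne (by omega), a1 hn]; right; ring
    by_cases e2 : n + 1 = h
    · have := a2 (by omega)
      rw [← e2, Nat.add_sub_cancel, e2] at this
      rw [e2, Function.update_self, Function.update_of_ne e1, this]; left; ring
    · rw [Function.update_of_ne e1, Function.update_of_ne e2]; exact hW n hn
  · by_cases e : h.val < k
    · refine ⟨⟨h + 1, by omega⟩, sup_up rfl ?_⟩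
      rw [Function.update_self, Function.update_of_ne (by simp), a1 e]; ring
    · refine ⟨⟨h - 1, by omega⟩, sup_dn (by simp; omega) ?_⟩
      rw [Function.update_self, Function.update_of_ne (by simp; omega), a2 (by omega)]; ring

theorem edge (hk : 3 ≤ k) {W : ℕ → ℝ} (hW : Adj k W) (h : Fin (k + 1)) :
    ∃ q z, q ≠ h ∧ z ≠ h ∧ Sup W q z := by
  obtain ⟨u, hu, h1, h2⟩ : ∃ u < k, u ≠ h.val ∧ u + 1 ≠ h.val := by
    by_cases e : h.val ≤ 1
    · exact ⟨2, by omega, by omega, by omega⟩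
    · exact ⟨0, by omega, by omega, by omega⟩
  rcases hW u hu with e | e
  · exact ⟨⟨u + 1, by omega⟩, ⟨u, by omega⟩, fun a => h2 (congrArg Fin.val a),
      fun a => h1 (congrArg Fin.val a), sup_dn rfl e⟩
  · exact ⟨⟨u, by omega⟩, ⟨u + 1, by omega⟩, fun a => h1 (congrArg Fin.val a),
      fun a => h2 (congrArg Fin.val a), sup_up rfl e⟩

noncomputable def g (b : ℝ) (x : Fin (k + 1)) : ℝ := b + (x : ℕ)

theorem dist_g (b : ℝ) (x y : Fin (k + 1)) : dist (g b x) (g b y) = |((x : ℕ) : ℝ) - (y : ℕ)| := by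
  simp [g, Real.dist_eq]

theorem g_inj (b : ℝ) {x y : Fin (k + 1)} (h : g b x = g b y) : x = y := by
  simp only [g, add_right_inj, Nat.cast_inj] at h; exact Fin.ext h

abbrev Pl (k : ℕ) := Option (Fin k) ≃ Fin (k + 1)

noncomputable def gap (b : ℝ) (X : Fin k → ℝ) (e : Pl k) : ℝ := ∑ i, dist (X i) (g b (e (some i)))

def Ach (b : ℝ) (s₀ : St ℝ k) (ρ : List ℝ) (p x : Fin (k + 1)) (c : ℝ) : Prop :=
  ∃ s c' e, Serves s₀ ρ s c' ∧ e none = x ∧ e (some s.2) = p ∧ s.1 s.2 = g b p ∧ c' + gap b s.1 e ≤ c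

theorem gap_swap (b : ℝ) (X : Fin k → ℝ) (e : Pl k) (i : Fin k) :
    gap b X ((Equiv.swap none (some i)).trans e) + dist (X i) (g b (e (some i))) =
      gap b X e + dist (X i) (g b (e none)) := by
  unfold gap
  rw [← add_sum_erase _ _ (mem_univ i), ← add_sum_erase _ _ (mem_univ i)]
  have : ∑ j ∈ univ.erase i, dist (X j) (g b (((Equiv.swap none (some i)).trans e) (some j))) =
      ∑ j ∈ univ.erase i, dist (X j) (g b (e (some j))) :=
    sum_congr rfl fun j hj => by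
      rw [Equiv.trans_apply, Equiv.swap_apply_of_ne_of_ne (by simp) (by simpa using ne_of_mem_erase hj)]
  rw [this]; simp; ring

theorem exi (e : Pl k) {r : Fin (k + 1)} (h : r ≠ e none) : ∃ j, e (some j) = r := by
  rcases hr : e.symm r with _ | j
  · exact absurd (by rw [← hr]; simp) h
  · exact ⟨j, by rw [← hr]; simp⟩

theorem ach_step {b : ℝ} {s₀ : St ℝ k} {ρ : List ℝ} {p r z : Fin (k + 1)} {W : ℕ → ℝ}
    (hA : ∀ x ≠ p, Ach b s₀ ρ p x (W x)) (hr : r ≠ p) (hz : Sup W p z) (hz' : z ≠ r) :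
    ∀ x ≠ r, Ach b s₀ (g b r :: ρ) r x (W x) := by
  have key : ∀ x ≠ p, x ≠ r → ∃ (f j : Fin k) (c : ℝ) (e : Pl k),
      Serves s₀ (g b r :: ρ) (fun i => g b (e (some i)), j) c ∧ e none = x ∧ e (some f) = p ∧
      e (some j) = r ∧ c ≤ W x := by
    intro x h1 h2
    obtain ⟨s, c', e, a1, a2, a3, a4, a5⟩ := hA x h1
    obtain ⟨j, hj⟩ := exi e (a2 ▸ h2.symm : r ≠ e none)
    exact ⟨s.2, j, _, e, a1.cons ⟨by simp only [a3, a4], by simp only [hj]⟩, a2, a3, hj, a5⟩
  intro x hx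
  by_cases hp : x = p
  · subst hp
    obtain ⟨f, j, c, e, a1, a2, a3, a4, a5⟩ := key z hz.1 hz'
    refine ⟨_, c, (Equiv.swap none (some f)).trans e, a1, by simp [a3], ?_, by simp only [a4], ?_⟩
    · have : j ≠ f := fun h => hr (by rw [← a4, h, a3])
      rw [Equiv.trans_apply, Equiv.swap_apply_of_ne_of_ne (by simp) (by simpa using this), a4]
    · have h1 := gap_swap b (fun i => g b (e (some i))) e f
      have h2 : gap b (fun i => g b (e (some i))) e = 0 := by simp [gap]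
      rw [h2, dist_self, a2, a3, dist_g, abs_sub_comm] at h1
      have := hz.2
      dsimp only
      linarith
  · obtain ⟨f, j, c, e, a1, a2, a3, a4, a5⟩ := key x hp hx
    exact ⟨_, c, e, a1, a2, a4, by simp only [a4], by simpa [gap] using a5⟩

def Inv (b c₀ : ℝ) (s₀ : St ℝ k) (A : List ℝ → St ℝ k) (ρ : List ℝ) (e : Pl k) (W : ℕ → ℝ)
    (v : ℝ) : Prop :=
  (A ρ).1 (A ρ).2 = g b (e (some (A ρ).2)) ∧ v + gap b (A ρ).1 e ≤ cost A ρ ∧
  ∑ i, W (e (some i)) ≤ v + c₀ ∧ Adj k W ∧ (∃ z, Sup W (e (some (A ρ).2)) z) ∧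
  ∀ x ≠ e (some (A ρ).2), Ach b s₀ ρ (e (some (A ρ).2)) x (W x)

theorem gap_move (b : ℝ) (s s' : St ℝ k) (e : Pl k) : gap b s'.1 e ≤ gap b s.1 e + move s s' := by
  unfold gap move
  rw [← sum_add_distrib]
  exact sum_le_sum fun i _ => by linarith [dist_triangle_left (s'.1 i) (g b (e (some i))) (s.1 i)]

theorem caseA (hk : 1 ≤ k) {b c₀ : ℝ} {s₀ : St ℝ k} {A : List ℝ → St ℝ k} (hA : Online s₀ A)
    {ρ e W v} (h : Inv b c₀ s₀ A ρ e W v) (z : Fin (k + 1)) (hz : Sup W (e (some (A ρ).2)) z)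
    (hz' : z ≠ e none) : ∃ ρ' e' W' v', Inv b c₀ s₀ A ρ' e' W' v' ∧ v + 1 ≤ v' := by
  obtain ⟨h1, h2, h3, h4, -, h6⟩ := h
  obtain ⟨W', w1, w2, w3⟩ := upd hk h4 (e none)
  have hs := hA.2 ρ (g b (e none))
  generalize hi : (A (g b (e none) :: ρ)).2 = i
  have hne : e (some i) ≠ e none := by simp
  have hne' : (e (some i)).val ≠ (e none).val := fun a => hne (Fin.ext a)
  refine ⟨g b (e none) :: ρ, (Equiv.swap none (some i)).trans e, W',
    v + |((e none : ℕ) : ℝ) - (e (some i) : ℕ)|, ?_, ?_⟩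
  · have e1 : ((Equiv.swap none (some i)).trans e) (some i) = e none := by simp
    have x1 : (A (g b (e none) :: ρ)).1 i = g b (e none) := hi ▸ hs.2
    unfold Inv
    rw [hi, e1]
    refine ⟨x1, ?_, ?_, w2, w3, fun x hx => ?_⟩
    · have a1 := gap_swap b (A (g b (e none) :: ρ)).1 e i
      have a2 := gap_move b (A ρ) (A (g b (e none) :: ρ)) e
      rw [x1, dist_self, dist_g] at a1
      simp only [cost]
      linarith
    · rw [← add_sum_erase _ _ (mem_univ i)] at h3 ⊢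
      have : ∑ j ∈ univ.erase i, W' (((Equiv.swap none (some i)).trans e) (some j)) =
          ∑ j ∈ univ.erase i, W (e (some j)) := sum_congr rfl fun j hj => by
        rw [Equiv.trans_apply,
          Equiv.swap_apply_of_ne_of_ne (by simp) (by simpa using ne_of_mem_erase hj)]
        exact w1 _ fun a => by simpa using Fin.ext a
      have a1 := lip w2 (e none) (e (some i)) (Nat.lt_succ_iff.mp (e none).isLt)
        (Nat.lt_succ_iff.mp (e (some i)).isLt)
      rw [w1 _ hne'] at a1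
      rw [this, e1]
      linarith
    · rw [w1 x fun a => hx (Fin.ext a)]
      exact ach_step h6 (by simp) hz hz' x hx
  · have : (1 : ℤ) ≤ |((e none : ℕ) : ℤ) - (e (some i) : ℕ)| := Int.one_le_abs (by omega)
    have : (1 : ℝ) ≤ |((e none : ℕ) : ℝ) - (e (some i) : ℕ)| := by exact_mod_cast this
    linarith

theorem round (hk : 3 ≤ k) {b c₀ : ℝ} {s₀ : St ℝ k} {A : List ℝ → St ℝ k} (hA : Online s₀ A)
    {ρ e W v} (h : Inv b c₀ s₀ A ρ e W v) :
    ∃ ρ' e' W' v', Inv b c₀ s₀ A ρ' e' W' v' ∧ v + 1 ≤ v' := by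
  by_cases hc : ∃ z, Sup W (e (some (A ρ).2)) z ∧ z ≠ e none
  · obtain ⟨z, h1, h2⟩ := hc
    exact caseA (by omega) hA h z h1 h2
  obtain ⟨h1, h2, h3, h4, ⟨z₀, h5⟩, h6⟩ := h
  have hz : z₀ = e none := by by_contra a; exact hc ⟨z₀, h5, a⟩
  obtain ⟨q, z, q1, q2, q3⟩ := edge hk h4 (e none)
  have qp : q ≠ e (some (A ρ).2) := fun a => hc ⟨z, a ▸ q3, q2⟩
  obtain ⟨j, hj⟩ := exi e q1
  have hs := hA.2 ρ (g b q)
  generalize hi : (A (g b q :: ρ)).2 = i
  have x1 : (A (g b q :: ρ)).1 i = g b q := hi ▸ hs.2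
  have e1 : ((Equiv.swap (some i) (some j)).trans e) (some i) = q := by simp [hj]
  have e2 : ((Equiv.swap (some i) (some j)).trans e) none = e none := by
    rw [Equiv.trans_apply, Equiv.swap_apply_of_ne_of_ne (by simp) (by simp)]
  have e3 : ∀ l, ((Equiv.swap (some i) (some j)).trans e) (some l) = e (some (Equiv.swap i j l)) :=
    fun l => by rw [Equiv.trans_apply, (Option.some_injective _).swap_apply]
  refine caseA (by omega) hA (ρ := g b q :: ρ) (e := (Equiv.swap (some i) (some j)).trans e)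
    (W := W) (v := v) ?_ z (by rw [hi, e1]; exact q3) (by rw [e2]; exact q2)
  unfold Inv
  rw [hi, e1]
  refine ⟨x1, ?_, ?_, h4, ⟨z, q3⟩, ach_step h6 qp h5 (hz ▸ q1.symm)⟩
  · have a2 := gap_move b (A ρ) (A (g b q :: ρ)) e
    have a1 : gap b (A (g b q :: ρ)).1 ((Equiv.swap (some i) (some j)).trans e) ≤
        gap b (A (g b q :: ρ)).1 e := by
      by_cases hij : i = j
      · subst hij; simp
      unfold gap
      simp only [e3]
      have m : j ∈ univ.erase i := by simp [Ne.symm hij]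
      rw [← add_sum_erase _ _ (mem_univ i), ← add_sum_erase _ _ (mem_univ i),
        ← add_sum_erase _ _ m, ← add_sum_erase _ _ m]
      have : ∑ l ∈ (univ.erase i).erase j,
          dist ((A (g b q :: ρ)).1 l) (g b (e (some (Equiv.swap i j l)))) =
          ∑ l ∈ (univ.erase i).erase j, dist ((A (g b q :: ρ)).1 l) (g b (e (some l))) :=
        sum_congr rfl fun l hl => by
          rw [Equiv.swap_apply_of_ne_of_ne (ne_of_mem_erase (mem_of_mem_erase hl))
            (ne_of_mem_erase hl)]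
      rw [this, Equiv.swap_apply_left, Equiv.swap_apply_right, hj, x1, dist_self]
      linarith [dist_triangle ((A (g b q :: ρ)).1 j) (g b q) (g b (e (some i)))]
    simp only [cost]
    linarith
  · simp only [e3]
    rw [Equiv.sum_comp (Equiv.swap i j) (fun l => W (e (some l)))]
    exact h3

theorem plc (f : Fin k) (p x : Fin (k + 1)) (h : x ≠ p) : ∃ e : Pl k, e none = x ∧ e (some f) = p := by
  obtain ⟨j, hj⟩ := exi (finSuccEquiv' x).symm (by simpa using h.symm : p ≠ _)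
  refine ⟨(Equiv.swap (some f) (some j)).trans (finSuccEquiv' x).symm, ?_, by simp [hj]⟩
  rw [Equiv.trans_apply, Equiv.swap_apply_of_ne_of_ne (by simp) (by simp)]; simp

theorem start (hk : 3 ≤ k) {s₀ : St ℝ k} {A : List ℝ → St ℝ k} (hA : Online s₀ A) :
    ∃ c₀ e W v, Inv (s₀.1 s₀.2) c₀ s₀ A [] e W v := by
  obtain ⟨B, hB⟩ := (Set.finite_range (gap (s₀.1 s₀.2) s₀.1)).bddAbove
  obtain ⟨e, he, he'⟩ := plc s₀.2 0 (Fin.last k) (by simp [Fin.ext_iff]; omega)
  have g0 : s₀.1 s₀.2 = g (s₀.1 s₀.2) (0 : Fin (k + 1)) := by simp [g]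
  refine ⟨∑ i, (B + k - (e (some i) : ℕ)) + gap (s₀.1 s₀.2) s₀.1 e, e, fun n => B + k - n,
    -gap (s₀.1 s₀.2) s₀.1 e, ?_⟩
  unfold Inv
  rw [hA.1, he']
  refine ⟨g0, by simp [cost], by simp, fun n _ => Or.inr (by push_cast; ring),
    ⟨⟨1, by omega⟩, sup_up rfl (by simp)⟩, fun x hx => ?_⟩
  obtain ⟨e', a1, a2⟩ := plc s₀.2 0 x hx
  have a3 : ((x : ℕ) : ℝ) ≤ k := by exact_mod_cast Nat.lt_succ_iff.mp x.isLt
  exact ⟨s₀, 0, e', .nil, a1, a2, g0, by linarith [hB ⟨e', rfl⟩]⟩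

theorem result (k : ℕ) (hk : 3 ≤ k) (s₀ : St ℝ k) (A : List ℝ → St ℝ k) (hA : Online s₀ A)
    (C : ℝ) (hC : Competitive s₀ A C) : k ≤ C := by
  by_contra hlt
  push Not at hlt
  obtain ⟨K, hK⟩ := hC
  obtain ⟨c₀, e₀, W₀, v₀, h₀⟩ := start hk hA
  have all : ∀ N : ℕ, ∃ ρ e W v, Inv (s₀.1 s₀.2) c₀ s₀ A ρ e W v ∧ v₀ + N ≤ v := by
    intro N
    induction N with
    | zero => exact ⟨_, _, _, _, h₀, by simp⟩
    | succ N ih =>
      obtain ⟨ρ, e, W, v, h, hv⟩ := ih
      obtain ⟨ρ', e', W', v', h', hv'⟩ := round hk hA h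
      exact ⟨_, _, _, _, h', by push_cast; linarith⟩
  obtain ⟨N, hN⟩ := exists_nat_gt (|C| * ((K + c₀) / (k - C)) + K - v₀)
  obtain ⟨ρ, e, W, v, ⟨-, h2, h3, -, ⟨z, h5⟩, h6⟩, hv⟩ := all N
  have g0 : ∀ X e, 0 ≤ gap (s₀.1 s₀.2) X (e : Pl k) := fun _ _ => sum_nonneg fun _ _ => dist_nonneg
  have a1 : ∀ x ≠ e (some (A ρ).2), opt s₀ ρ ≤ W x := fun x hx => by
    obtain ⟨s, c, e', b1, -, -, -, b2⟩ := h6 x hx
    linarith [opt_le b1, g0 s.1 e']
  have a2 : ∀ x : Fin (k + 1), opt s₀ ρ ≤ W x := fun x => by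
    by_cases hx : x = e (some (A ρ).2)
    · rw [hx]; linarith [a1 z h5.1, h5.2, abs_nonneg (((z : ℕ) : ℝ) - (e (some (A ρ).2) : ℕ))]
    · exact a1 x hx
  have a3 := sum_le_sum fun i (_ : i ∈ univ) => a2 (e (some i))
  rw [sum_const, card_univ, Fintype.card_fin, nsmul_eq_mul] at a3
  have a4 := hK ρ
  have a5 := g0 (A ρ).1 e
  have a6 : opt s₀ ρ ≤ (K + c₀) / (k - C) := by
    rw [le_div_iff₀ (by linarith)]; linarith
  have a7 := mul_le_mul_of_nonneg_left a6 (abs_nonneg C)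
  have a8 := mul_le_mul_of_nonneg_right (le_abs_self C) (opt_nn s₀ ρ)
  linarith

end Pool.Agent.Results.MP_f4335c_lc.Yes
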